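import Pool.Agent.K3h1.TF.Stm

/-!
# Project TF (helper1), bricks LOC2, SUM, LOC3: `p`-th roots in local fields (helper4)
-/

set_option autoImplicit false

namespace Pool.Agent.K3h4.TF

open Polynomial

/-! ### the residue field -/

section zmod

variable {p q : ℕ} [hq : Fact q.Prime]

theorem cop (hp : p.Prime) (h : q % p ≠ 1) : (Nat.card (ZMod q)ˣ).Coprime p := by
  rw [Nat.card_eq_fintype_card, ZMod.card_units_eq_totient, Nat.totient_prime hq.out]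
  refine ((Nat.Prime.coprime_iff_not_dvd hp).2 fun h1 => h ?_).symm
  have h2 : 1 ≡ q [MOD p] := (Nat.modEq_iff_dvd' hq.out.one_lt.le).2 h1
  have h3 : q % p = 1 % p := h2.symm
  rw [h3, Nat.mod_eq_of_lt hp.one_lt]

theorem pow_inj (hp : p.Prime) (h : q % p ≠ 1) {x y : ZMod q} (hxy : x ^ p = y ^ p) : x = y := by
  by_cases hx : x = 0
  · rw [hx, zero_pow hp.ne_zero] at hxy
    rw [hx]
    exact (pow_eq_zero_iff hp.ne_zero |>.1 hxy.symm).symm
  · have hy : y ≠ 0 := by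
      rintro rfl
      rw [zero_pow hp.ne_zero] at hxy
      exact hx (pow_eq_zero_iff hp.ne_zero |>.1 hxy)
    have h1 : (powCoprime (cop hp h)) (Units.mk0 x hx) = (powCoprime (cop hp h)) (Units.mk0 y hy) := by
      apply Units.ext
      exact hxy
    have h2 := (powCoprime (cop hp h)).injective h1
    exact congrArg Units.val h2

theorem pow_surj (hp : p.Prime) (h : q % p ≠ 1) {c : ZMod q} (hc : c ≠ 0) :
    ∃ a : ZMod q, a ≠ 0 ∧ a ^ p = c := by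
  obtain ⟨a, ha⟩ := (powCoprime (cop hp h)).surjective (Units.mk0 c hc)
  refine ⟨a, a.ne_zero, ?_⟩
  exact congrArg Units.val ha

theorem toZMod_zero (x : ℤ_[q]) : PadicInt.toZMod x = 0 ↔ ‖x‖ < 1 := by
  have h2 : PadicInt.toZMod x = 0 ↔ x ∈ RingHom.ker (PadicInt.toZMod (p := q)) := Iff.rfl
  rw [h2, PadicInt.ker_toZMod, IsLocalRing.mem_maximalIdeal, PadicInt.mem_nonunits]

end zmod

theorem t_SUM : Pool.Agent.K3h1.TF.S_SUM := by
  intro p hp hp2 q _ hqp x y hx hy hxy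
  obtain ⟨X, hX⟩ : ∃ X : ℤ_[q], (X : ℚ_[q]) = x := ⟨⟨x, hx⟩, rfl⟩
  obtain ⟨Y, hY⟩ : ∃ Y : ℤ_[q], (Y : ℚ_[q]) = y := ⟨⟨y, hy⟩, rfl⟩
  have h1 : ‖X ^ p + Y ^ p‖ < 1 := by
    rw [PadicInt.norm_def]
    push_cast
    rw [hX, hY]
    exact hxy
  rw [← toZMod_zero, map_add, map_pow, map_pow] at h1
  have hodd : Odd p := hp.odd_of_ne_two hp2
  have h2 : (PadicInt.toZMod X) ^ p = (-(PadicInt.toZMod Y)) ^ p := by
    rw [hodd.neg_pow]
    exact eq_neg_of_add_eq_zero_left h1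
  have h3 := pow_inj hp hqp h2
  have h4 : ‖X + Y‖ < 1 := by
    rw [← toZMod_zero, map_add, h3, neg_add_cancel]
  rw [PadicInt.norm_def] at h4
  push_cast at h4
  rwa [hX, hY] at h4

/-! ### Hensel's lemma for `b X^p = a` -/

theorem hensel {q : ℕ} [Fact q.Prime] (p : ℕ) (hp : p ≠ 0) (a b x : ℤ)
    (h : ‖((b * x ^ p - a : ℤ) : ℤ_[q])‖ < ‖((p * b * x ^ (p - 1) : ℤ) : ℤ_[q])‖ ^ 2) :
    ∃ z : ℤ_[q], (b : ℤ_[q]) * z ^ p = a := by
  obtain ⟨F, hF⟩ : ∃ F : ℤ[X], F = C b * X ^ p - C a := ⟨_, rfl⟩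
  have h1 : ∀ z : ℤ_[q], F.aeval z = b * z ^ p - a := by
    intro z
    rw [hF]
    simp
  have hd : F.derivative = C b * (C (p : ℤ) * X ^ (p - 1)) := by
    rw [hF, derivative_sub, derivative_C, sub_zero, derivative_C_mul, derivative_X_pow]
  have h2 : F.derivative.aeval (x : ℤ_[q]) = ((p * b * x ^ (p - 1) : ℤ) : ℤ_[q]) := by
    rw [hd]
    simp
    ring
  have h3 : ‖F.aeval (x : ℤ_[q])‖ < ‖F.derivative.aeval (x : ℤ_[q])‖ ^ 2 := by
    rw [h1, h2]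
    push_cast at h ⊢
    exact h
  obtain ⟨z, hz, -⟩ := hensels_lemma h3
  refine ⟨z, ?_⟩
  rw [h1] at hz
  exact sub_eq_zero.1 hz

theorem t_LOC2 : Pool.Agent.K3h1.TF.S_LOC2 := by
  intro p hp q hq hqp hq1 c hc
  have hcz : (c : ZMod q) ≠ 0 := by
    rw [Ne, ZMod.intCast_zmod_eq_zero_iff_dvd]
    exact hc
  obtain ⟨a, ha0, ha⟩ := pow_surj hp hq1 hcz
  obtain ⟨x, hx⟩ : ∃ x : ℤ, (x : ZMod q) = a := ⟨(a.val : ℤ), by
    rw [Int.cast_natCast, ZMod.natCast_zmod_val]⟩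
  have hx0 : ¬ (q : ℤ) ∣ x := by
    rw [← ZMod.intCast_zmod_eq_zero_iff_dvd, hx]
    exact ha0
  have h1 : (q : ℤ) ∣ 1 * x ^ p - c := by
    rw [← ZMod.intCast_zmod_eq_zero_iff_dvd]
    push_cast
    rw [hx, ha]
    ring
  have hqp' : ¬ (q : ℤ) ∣ (p : ℤ) := by
    intro h
    exact hqp ((Nat.prime_dvd_prime_iff_eq hq.out hp).1 (Int.natCast_dvd_natCast.1 h))
  have hprime : Prime (q : ℤ) := Nat.prime_iff_prime_int.1 hq.out
  have h2 : ¬ (q : ℤ) ∣ p * 1 * x ^ (p - 1) := by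
    intro h
    rcases hprime.dvd_or_dvd h with h | h
    · rw [mul_one] at h
      exact hqp' h
    · exact hx0 (hprime.dvd_of_dvd_pow h)
  have h3 : ‖((p * 1 * x ^ (p - 1) : ℤ) : ℤ_[q])‖ = 1 := by
    refine le_antisymm (PadicInt.norm_le_one _) (not_lt.1 fun h => h2 ?_)
    exact (PadicInt.norm_int_lt_one_iff_dvd _).1 h
  obtain ⟨z, hz⟩ := hensel (q := q) p hp.ne_zero c 1 x (by
    rw [h3, one_pow]
    exact (PadicInt.norm_int_lt_one_iff_dvd _).2 h1)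
  have hz' : (z : ℚ_[q]) ^ p = c := by
    have := congrArg (fun w : ℤ_[q] => (w : ℚ_[q])) hz
    push_cast at this
    rwa [one_mul] at this
  refine ⟨z, ?_, hz'⟩
  intro h0
  rw [h0, zero_pow hp.ne_zero] at hz'
  have : c = 0 := by exact_mod_cast hz'.symm
  exact hc (by rw [this]; exact dvd_zero _)

theorem expand (y : ℤ) : ∀ n : ℕ, ∃ c : ℤ, (1 + y) ^ n = 1 + n * y + (n.choose 2 : ℕ) * y ^ 2 +
    y ^ 3 * c
  | 0 => ⟨0, by simp⟩
  | n + 1 => by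
    obtain ⟨c, hc⟩ := expand y n
    refine ⟨c + (n.choose 2 : ℕ) + y * c, ?_⟩
    have h1 : (n + 1).choose 2 = n + n.choose 2 := by
      rw [Nat.choose_succ_succ' n 1, Nat.choose_one_right]
    rw [pow_succ, hc, h1]
    push_cast
    ring

theorem t_LOC3 : Pool.Agent.K3h1.TF.S_LOC3 := by
  intro p hp hp3 a b t hb ht hab
  have hprime : Prime (p : ℤ) := Nat.prime_iff_prime_int.1 hp.out
  obtain ⟨m, hm⟩ := hab
  -- `b A = - m` modulo `p`
  have hcop : IsCoprime b (p : ℤ) := by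
    have h1 := (Prime.coprime_iff_not_dvd hprime).2 hb
    exact h1.symm
  obtain ⟨u, v, huv⟩ := hcop
  obtain ⟨A, hA⟩ : ∃ A, A = -m * u := ⟨_, rfl⟩
  have hbA : (p : ℤ) ∣ m + b * A := ⟨m * v, by
    rw [hA]
    linear_combination -m * huv⟩
  obtain ⟨x, hx⟩ : ∃ x, x = 1 + (p : ℤ) * A := ⟨_, rfl⟩
  have hx0 : ¬ (p : ℤ) ∣ x := by
    intro h
    rw [hx] at h
    have h1 : (p : ℤ) ∣ 1 := (dvd_add_left (dvd_mul_right _ _)).1 h
    exact hprime.not_dvd_one h1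
  have h1 : (p : ℤ) ^ 3 ∣ b * x ^ p - a * t ^ p := by
    obtain ⟨c, hc⟩ := expand ((p : ℤ) * A) p
    obtain ⟨e, he⟩ := hbA
    obtain ⟨f, hf⟩ : p ∣ p.choose 2 := hp.out.dvd_choose_self two_ne_zero (by omega)
    have hf' : ((p.choose 2 : ℕ) : ℤ) = p * f := by
      rw [hf]
      push_cast
      ring
    refine ⟨e + b * f * A ^ 2 + b * A ^ 3 * c, ?_⟩
    rw [hx, hc, hf']
    linear_combination hm + (p : ℤ) ^ 2 * he
  have h2 : ‖((b * x ^ p - a * t ^ p : ℤ) : ℤ_[p])‖ ≤ (p : ℝ) ^ (-(3 : ℕ) : ℤ) :=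
    PadicInt.norm_int_le_pow_iff_dvd.2 (by exact_mod_cast h1)
  have h3 : ‖((b * x ^ (p - 1) : ℤ) : ℤ_[p])‖ = 1 := by
    refine le_antisymm (PadicInt.norm_le_one _) (not_lt.1 fun h => ?_)
    rcases hprime.dvd_or_dvd ((PadicInt.norm_int_lt_one_iff_dvd _).1 h) with h | h
    · exact hb h
    · exact hx0 (hprime.dvd_of_dvd_pow h)
  have h4 : ‖((p * b * x ^ (p - 1) : ℤ) : ℤ_[p])‖ = (p : ℝ)⁻¹ := by
    have h5 : ((p * b * x ^ (p - 1) : ℤ) : ℤ_[p]) = (p : ℤ_[p]) *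
        ((b * x ^ (p - 1) : ℤ) : ℤ_[p]) := by
      push_cast
      ring
    rw [h5, norm_mul, h3, mul_one, PadicInt.norm_p]
  have hp1 : (1 : ℝ) < p := by exact_mod_cast hp.out.one_lt
  obtain ⟨z, hz⟩ := hensel (q := p) p hp.out.ne_zero (a * t ^ p) b x (by
    rw [h4]
    refine lt_of_le_of_lt h2 ?_
    rw [← zpow_neg_one, ← zpow_natCast, ← zpow_mul]
    exact zpow_lt_zpow_right₀ hp1 (by norm_num))
  have hz' : (b : ℚ_[p]) * (z : ℚ_[p]) ^ p = a * t ^ p := by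
    have := congrArg (fun w : ℤ_[p] => (w : ℚ_[p])) hz
    push_cast at this
    exact this
  have ht0 : (t : ℚ_[p]) ≠ 0 := by
    intro h
    have : t = 0 := by exact_mod_cast h
    exact ht (by rw [this]; exact dvd_zero _)
  refine ⟨z / t, ?_, ?_⟩
  · refine div_ne_zero ?_ ht0
    intro h0
    rw [h0, zero_pow hp.out.ne_zero, mul_zero] at hz'
    have h5 : a * t ^ p = 0 := by exact_mod_cast hz'.symm
    rw [h5, sub_zero] at hm
    exact hb (by rw [hm, pow_two, mul_assoc]; exact dvd_mul_right _ _)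
  · rw [div_pow, ← mul_div_assoc, hz']
    field_simp

end Pool.Agent.K3h4.TF
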